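import Mathlib
import Pool.Agent.Lib.MP_29aef5_ag.Defs
import Pool.Agent.Lib.MP_29aef5_ag.General
import Pool.Agent.Lib.MP_29aef5_ag.Obstruction
import Pool.Agent.Lib.MP_29aef5_ag.Adapted
import Pool.Agent.Lib.MP_29aef5_ag.Example
import Pool.Agent.Lib.MP_29aef5_ag.Example2
import Pool.Agent.Lib.MP_29aef5_ag.Example3
import Pool.Agent.Lib.MP_29aef5_ag.Numbers
import Pool.Agent.Lib.MP_29aef5_ag.PowerSeries

/-!
# Non-ubiquitous partial symmetric decompositions exist in every codimension `r ≥ 3`

The algebra is `R / Ann f` with dual generator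
`f = X^[3] Y^[6] + Z Y^[7] + X^[8] + ∑_l W_l^[2]` (divided powers, contraction action).
-/

namespace Pool.Agent.Results.MP_29aef5_ag.NonUbiquitousExists

open Pool.Agent.Lib.MP_29aef5_ag MvPowerSeries Finsupp

section

variable {τ : Type*} [Fintype τ] [DecidableEq τ] (k : Type*) [Field k] {p q s : τ}
variable (hpq : p ≠ q) (hps : p ≠ s) (hqs : q ≠ s)

include hpq hps hqs

theorem coeff_zero_of_mem (g : MvPowerSeries τ k) (hg : g ∈ annI k p q s) : coeff 0 g = 0 := by
  have h := hg (monomial (M p q s 3 6 0) 1)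
  rw [mul_comm, Phi_monomial_mul, sum_M_eq_zero k hpq hps hqs _ _ _ (by norm_num)] at h
  simp only [M_le_iff hpq hps hqs] at h
  norm_num at h
  exact h

theorem coeff_p_of_mem (g : MvPowerSeries τ k) (hg : g ∈ annI k p q s) :
    coeff (single p 1) g = 0 := by
  have h := hg (monomial (M p q s 2 6 0) 1)
  rw [mul_comm, Phi_monomial_mul, sum_M_eq_zero k hpq hps hqs _ _ _ (by norm_num)] at h
  simp only [M_le_iff hpq hps hqs] at h
  norm_num at h
  rw [M_sub _ _ _ _ _ _ (by norm_num) (by norm_num) (by norm_num)] at h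
  have h2 : M p q s (3 - 2) (6 - 6) (0 - 0) = single p 1 := by simp [M]
  rwa [h2] at h

theorem coeff_q_of_mem (g : MvPowerSeries τ k) (hg : g ∈ annI k p q s) :
    coeff (single q 1) g = 0 := by
  have h := hg (monomial (M p q s 3 5 0) 1)
  rw [mul_comm, Phi_monomial_mul, sum_M_eq_zero k hpq hps hqs _ _ _ (by norm_num)] at h
  simp only [M_le_iff hpq hps hqs] at h
  norm_num at h
  rw [M_sub _ _ _ _ _ _ (by norm_num) (by norm_num) (by norm_num)] at h
  have h2 : M p q s (3 - 3) (6 - 5) (0 - 0) = single q 1 := by simp [M]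
  rwa [h2] at h

theorem coeff_s_of_mem (g : MvPowerSeries τ k) (hg : g ∈ annI k p q s) :
    coeff (single s 1) g = 0 := by
  have h := hg (monomial (M p q s 0 7 0) 1)
  rw [mul_comm, Phi_monomial_mul, sum_M_eq_zero k hpq hps hqs _ _ _ (by norm_num)] at h
  simp only [M_le_iff hpq hps hqs] at h
  norm_num at h
  rw [M_sub _ _ _ _ _ _ (by norm_num) (by norm_num) (by norm_num)] at h
  have h2 : M p q s (0 - 0) (7 - 7) (1 - 0) = single s 1 := by simp [M]
  rwa [h2] at h

theorem coeff_other_of_mem (g : MvPowerSeries τ k) (hg : g ∈ annI k p q s) (l : Others p q s) :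
    coeff (single l.1 1) g = 0 := by
  have h := hg (monomial (single l.1 1) 1)
  rw [mul_comm, Phi_monomial_mul] at h
  have key : ∀ a b c, ¬ (single l.1 1 ≤ M p q s a b c) := by
    intro a b c h
    have := h l.1
    rw [M_other, single_eq_same] at this
    omega
  rw [if_neg (key _ _ _), if_neg (key _ _ _), if_neg (key _ _ _), Finset.sum_eq_single l,
    if_pos (single_le_single.2 (by norm_num)), zero_add, zero_add, zero_add] at h
  · have h2 : (single l.1 2 : τ →₀ ℕ) - single l.1 1 = single l.1 1 := by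
      rw [← Finsupp.single_tsub]
    rwa [h2] at h
  · intro l' _ hne
    rw [if_neg]
    intro h
    have := h l.1
    rw [single_eq_same, single_eq_of_ne (fun h' => hne (Subtype.ext h'.symm))] at this
    omega
  · intro h'; exact absurd (Finset.mem_univ _) h'

theorem coeff_of_mem (g : MvPowerSeries τ k) (hg : g ∈ annI k p q s) (d : τ →₀ ℕ)
    (hd : d.degree < 2) : coeff d g = 0 := by
  by_cases h0 : d = 0
  · rw [h0]; exact coeff_zero_of_mem k hpq hps hqs g hg
  · have hex : ∃ l, d l ≠ 0 := by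
      by_contra h
      push Not at h
      exact h0 (Finsupp.ext h)
    obtain ⟨l, hl⟩ := hex
    have h1 : single l 1 ≤ d := by rw [Finsupp.single_le_iff]; omega
    obtain ⟨e, rfl⟩ : ∃ e, d = single l 1 + e := ⟨d - single l 1, by
      rw [add_tsub_cancel_of_le h1]⟩
    rw [map_add, degree_single] at hd
    have he : e.degree = 0 := by omega
    rw [Finsupp.degree_eq_zero_iff] at he
    subst he
    rw [add_zero]
    by_cases hp : l = p
    · rw [hp]; exact coeff_p_of_mem k hpq hps hqs g hg
    by_cases hq : l = q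
    · rw [hq]; exact coeff_q_of_mem k hpq hps hqs g hg
    by_cases hs : l = s
    · rw [hs]; exact coeff_s_of_mem k hpq hps hqs g hg
    exact coeff_other_of_mem k hpq hps hqs g hg ⟨l, hp, hq, hs⟩

end

/-- For every field `k` and every `r ≥ 3` there are an AG algebra `A = R/I`, `R = k{x_1, …, x_r}`
(even with `I ⊆ m_R ^ 2`, so that `A` has embedding dimension exactly `r`), and an integer `a ≥ 1`,
such that the partial decomposition `D_{≤ a}(A)` is non-ubiquitous. -/
theorem result (k : Type*) [Field k] (r : ℕ) (hr : 3 ≤ r) :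
    ∃ I : Ideal (MvPowerSeries (Fin r) k),
      IsAG I ∧ I ≤ IsLocalRing.maximalIdeal (MvPowerSeries (Fin r) k) ^ 2 ∧
        ∃ a : ℕ, 1 ≤ a ∧ IsNonUbiquitous I a := by
  let p : Fin r := ⟨0, by omega⟩
  let q : Fin r := ⟨1, by omega⟩
  let s : Fin r := ⟨2, by omega⟩
  have hpq : p ≠ q := by simp [p, q]
  have hps : p ≠ s := by simp [p, s]
  have hqs : q ≠ s := by simp [q, s]
  have hfin : Module.Finite k (MvPowerSeries (Fin r) k ⧸ annI k p q s) :=
    (adaptedB k hpq hps hqs).finite
  refine ⟨annI k p q s, ⟨annI_ne_top k hpq hps hqs, ?_, ?_⟩, ?_, 1, le_rfl, ?_⟩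
  · exact isArtinian_of_tower k inferInstance
  · exact finrank_socleB k hpq hps hqs
  · intro g hg
    exact mem_maximalIdeal_sq g (coeff_of_mem k hpq hps hqs g hg)
  · rintro ⟨n, J, ⟨hJ, hart, -⟩, heq, hzero⟩
    obtain ⟨N, hN⟩ := maxIdeal_nilpotent J hJ
    have e1 : ∀ u ≤ 1, ∀ i, symH k (maxIdeal J) u i = symH k (mB k p q s) u i := heq
    refine obstruction (k := k) (maxIdeal J) (maxIdeal_res J) hN ?_ ?_ ?_ ?_ ?_
    · rw [e1 0 (by norm_num), e1 1 le_rfl]
      exact symB_1 k hpq hps hqs
    · rw [e1 1 le_rfl]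
      exact symB_11 k hpq hps hqs
    · rw [e1 1 le_rfl]
      exact symB_12 k hpq hps hqs
    · rw [e1 0 (by norm_num), e1 1 le_rfl]
      exact symB_4 k hpq hps hqs
    · intro a ha i
      exact hzero a (by omega) i

end Pool.Agent.Results.MP_29aef5_ag.NonUbiquitousExists
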